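import Pool.Agent.Y719.NG.Iff
import Pool.Agent.Y719.EL.NF8

/-!
# Modularity over imaginary quadratic fields is decided by one modulus on the edge

Let `K` be an imaginary quadratic field, or any number field which is Galois over `ℚ`, `E` an elliptic
curve over `K` and `F` a Bianchi newform of weight 2.  The Euler products `L(E, s)` and `L(F, s)`
converge for `Re s > 3/2`.  Nothing is assumed about a continuation of `L(E, s)`.  We show that
`L(E, s) = L(F, s)`, that is, `E` is modular by `F`, if and only if the absolute values of the boundary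
values agree almost everywhere on the line `Re s = 3/2`, and that it is enough to know the quotient of
the absolute values to be nearly constant on a set of positive upper density of the line.  So a single
positive function, without phase and without twists, decides about modularity.  If `E` has no complex
multiplication by an order in `K`, and if the modulus of `L(E, s)` on the line is, for example on a set
of positive upper density and up to a constant, a product of integral powers of the moduli for Bianchi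
forms `G_j`, we show with the `p`-adic representations of `E` and `G_j` that the Euler factors of `E` at
the places of `K` away from a finite set are those of one of the `G_j`, or of its conjugate.
-/

set_option autoImplicit false

namespace Pool.Agent.Results.MP_87c685_nt.OneModulus

open NumberField IsDedekindDomain MeasureTheory Filter Topology Polynomial

/-- `W v` is, for every finite place `v`, an integral model of `E` with discriminant minimal at
`v`. -/
def MinimalModels {K : Type} [Field K] [NumberField K] (E : WeierstrassCurve K)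
    (W : HeightOneSpectrum (𝓞 K) → WeierstrassCurve (𝓞 K)) : Prop :=
  ∀ v : HeightOneSpectrum (𝓞 K),
    (∃ C : WeierstrassCurve.VariableChange K, C • (W v).map (algebraMap (𝓞 K) K) = E) ∧
    ∀ W' : WeierstrassCurve (𝓞 K),
      (∃ C : WeierstrassCurve.VariableChange K, C • W'.map (algebraMap (𝓞 K) K) = E) →
      ∀ n : ℕ, (W v).Δ ∈ v.asIdeal ^ n → W'.Δ ∈ v.asIdeal ^ n

section
variable {K : Type} [Field K] [NumberField K]

open Classical in
/-- The polynomial of the Euler factor of the elliptic curve at `v`: `1 - a_v X + Nv X²` if the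
reduction is good and `1 - a_v X` if it is bad, where `a_v` is `Nv` minus the number of affine points
of the reduction of the minimal model `W v` (for bad reduction this is `1`, `-1`, `0` in the split
multiplicative, non-split multiplicative, additive case). -/
noncomputable def curvePoly (W : HeightOneSpectrum (𝓞 K) → WeierstrassCurve (𝓞 K))
    (v : HeightOneSpectrum (𝓞 K)) : ℂ[X] :=
  1 - C ((Ideal.absNorm v.asIdeal : ℂ)
        - (Nat.card {xy : (𝓞 K ⧸ v.asIdeal) × (𝓞 K ⧸ v.asIdeal) //
            ((W v).map (Ideal.Quotient.mk v.asIdeal)).toAffine.Equation xy.1 xy.2} : ℂ)) * X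
    + C (if (W v).Δ ∈ v.asIdeal then 0 else (Ideal.absNorm v.asIdeal : ℂ)) * X ^ 2

variable (K) in
/-- The data of the Euler product of a Bianchi newform of weight 2 and trivial Nebentypus: the level,
the Hecke eigenvalues `a_v` (which are `0` or `±1` at the places dividing the level), a bound towards
the Ramanujan conjecture, `|α_v|, |β_v| ≤ Nv^(1/2+θ)` with `θ < 1/2` for the roots of
`X² - a_v X + Nv`, and the Rankin-Selberg bound `∑_{Nv < x} |a_v|² Nv^(-1) log Nv = O(x)`. -/
structure Form where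
  /-- the level -/
  level : Ideal (𝓞 K)
  level_ne : level ≠ ⊥
  /-- the Hecke eigenvalues -/
  a : HeightOneSpectrum (𝓞 K) → ℂ
  bad : ∀ v : HeightOneSpectrum (𝓞 K), level ≤ v.asIdeal → a v = 0 ∨ a v = 1 ∨ a v = -1
  /-- the exponent in the bound towards the Ramanujan conjecture -/
  θ : ℝ
  θ_nonneg : 0 ≤ θ
  θ_lt : θ < 1 / 2
  bound : ∀ v : HeightOneSpectrum (𝓞 K), ¬ level ≤ v.asIdeal → ∀ z : ℂ,
    1 - a v * z + (Ideal.absNorm v.asIdeal : ℂ) * z ^ 2 = 0 →
      (Ideal.absNorm v.asIdeal : ℝ) ^ (-(1 / 2 + θ)) ≤ ‖z‖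
  /-- the constant in the Rankin-Selberg bound -/
  C₀ : ℝ
  meanSquare : ∀ (x : ℕ) (T : Finset (HeightOneSpectrum (𝓞 K))),
    (∀ v ∈ T, Ideal.absNorm v.asIdeal < x) →
      ∑ v ∈ T, ‖a v‖ ^ 2 * (Ideal.absNorm v.asIdeal : ℝ) ^ (-1 : ℝ) *
        Real.log (Ideal.absNorm v.asIdeal) ≤ C₀ * x

open Classical in
/-- The polynomial of the Euler factor of the form at `v`: `1 - a_v X + Nv X²` if `v` does not divide
the level and `1 - a_v X` if it does. -/
noncomputable def formPoly (F : Form K) (v : HeightOneSpectrum (𝓞 K)) : ℂ[X] :=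
  1 - C (F.a v) * X +
    C (if F.level ≤ v.asIdeal then 0 else (Ideal.absNorm v.asIdeal : ℂ)) * X ^ 2

/-- The Euler product `∏_v P_v(Nv^{-s})⁻¹` with the polynomials `P_v`. -/
noncomputable def L (P : HeightOneSpectrum (𝓞 K) → ℂ[X]) (s : ℂ) : ℂ :=
  ∏' v : HeightOneSpectrum (𝓞 K), ((P v).eval ((Ideal.absNorm v.asIdeal : ℂ) ^ (-s)))⁻¹

/-- The limit of `|L(3/2 + σ + iτ)|` for `σ → 0`, `σ > 0`. -/
noncomputable def edgeAbs (P : HeightOneSpectrum (𝓞 K) → ℂ[X]) (τ : ℝ) : ℝ :=
  limUnder (𝓝[>] (0 : ℝ)) fun σ : ℝ => ‖L P (3 / 2 + σ + τ * Complex.I)‖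

/-- `g` is a Frobenius element at `v`: for some maximal ideal `Q` above `v` of the ring of all
algebraic integers, `g x ≡ x ^ N(v)` modulo `Q` for all `x`. -/
def Frobenius (v : HeightOneSpectrum (𝓞 K)) (g : Gal(AlgebraicClosure K/K)) : Prop :=
  ∃ Q : Ideal (𝓞 (AlgebraicClosure K)), Q.IsMaximal ∧
    Q.comap (algebraMap (𝓞 K) (𝓞 (AlgebraicClosure K))) = v.asIdeal ∧
    ∀ x : 𝓞 (AlgebraicClosure K), g • x - x ^ Ideal.absNorm v.asIdeal ∈ Q

/-- `g` lies in an inertia group at `v`: for some maximal ideal `Q` above `v` of the ring of all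
algebraic integers, `g x ≡ x` modulo `Q` for all `x`. -/
def Inertia (v : HeightOneSpectrum (𝓞 K)) (g : Gal(AlgebraicClosure K/K)) : Prop :=
  ∃ Q : Ideal (𝓞 (AlgebraicClosure K)), Q.IsMaximal ∧
    Q.comap (algebraMap (𝓞 K) (𝓞 (AlgebraicClosure K))) = v.asIdeal ∧
    ∀ x : 𝓞 (AlgebraicClosure K), g • x - x ∈ Q

variable {p : ℕ} [Fact p.Prime]

/-- The matrix of `g`. -/
noncomputable def matrix (ρ : Gal(AlgebraicClosure K/K) →* GL (Fin 2) (PadicAlgCl p))
    (g : Gal(AlgebraicClosure K/K)) : Matrix (Fin 2) (Fin 2) (PadicAlgCl p) :=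
  (ρ g : GL (Fin 2) (PadicAlgCl p))

/-- `W` is a stable subspace. -/
def Stable (ρ : Gal(AlgebraicClosure K/K) →* GL (Fin 2) (PadicAlgCl p))
    (W : Submodule (PadicAlgCl p) (Fin 2 → PadicAlgCl p)) : Prop :=
  ∀ g, ∀ x ∈ W, (matrix ρ g).mulVec x ∈ W

/-- `ρ` is irreducible. -/
def Irreducible (ρ : Gal(AlgebraicClosure K/K) →* GL (Fin 2) (PadicAlgCl p)) : Prop :=
  ∀ W, Stable ρ W → W = ⊥ ∨ W = ⊤

/-- `ρ` is semisimple: every stable subspace has a stable complement. -/
def Semisimple (ρ : Gal(AlgebraicClosure K/K) →* GL (Fin 2) (PadicAlgCl p)) : Prop :=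
  ∀ W, Stable ρ W → ∃ W', Stable ρ W' ∧ IsCompl W W'

/-- `v` lies above a prime number in `S`. -/
def Bad (S : Finset ℕ) (v : HeightOneSpectrum (𝓞 K)) : Prop :=
  ∃ q ∈ S, (q : 𝓞 K) ∈ v.asIdeal

/-- `ρ` is attached to the Euler factors `P_v` away from `S`: for all `v` not above `S` it is
unramified, with `det(1 - X ρ(g⁻¹)) = P_v` for the Frobenius elements `g` at `v`, with coefficients
mapped to `ℂ` by `ι`. -/
structure Attached (S : Finset ℕ) (ι : PadicAlgCl p →+* ℂ)
    (ρ : Gal(AlgebraicClosure K/K) →* GL (Fin 2) (PadicAlgCl p))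
    (P : HeightOneSpectrum (𝓞 K) → ℂ[X]) : Prop where
  unramified : ∀ v, ¬ Bad S v → ∀ g, Inertia v g → ρ g = 1
  frobenius : ∀ v, ¬ Bad S v → ∀ g, Frobenius v g → (matrix ρ g⁻¹).charpolyRev.map ι = P v

/-- `v' = τ v` -/
def IsImage (τ : K ≃ₐ[ℚ] K) (v v' : HeightOneSpectrum (𝓞 K)) : Prop :=
  ∀ a b : 𝓞 K, (b : K) = τ (a : K) → (b ∈ v'.asIdeal ↔ a ∈ v.asIdeal)

end

/-- The values of `f` are concentrated: there is `δ > 0` such that for every `ε > 0` there are
arbitrarily large `T` and a real number `x` with `|f - x| < ε` on a subset of `(0, T]` of measure at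
least `δ T`. -/
def Concentrated (f : ℝ → ℝ) : Prop :=
  ∃ δ : ℝ, 0 < δ ∧ ∀ ε : ℝ, 0 < ε → ∃ᶠ T : ℝ in atTop, ∃ x : ℝ,
    ENNReal.ofReal (δ * T) ≤ volume {τ | τ ∈ Set.Ioc 0 T ∧ |f τ - x| < ε}

/-- **One modulus decides about modularity.**  Let `K` be a number field which is Galois over `ℚ`, for
example an imaginary quadratic field, `E` an elliptic curve over `K` and `F` a Bianchi form of
weight 2.

* The following are equivalent: `L(E, s) = L(F, s)` for `Re s > 3/2`, that is, `E` is modular by `F`;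
  `|L(E, s)| = |L(F, s)|` for almost all `s` on the line `Re s = 3/2`; the logarithm of the quotient of
  these absolute values is concentrated, for example constant on a set of positive upper density.
* Let `G_j`, `j` in a finite set, be Bianchi forms of weight 2 and `m_j` integers.  Let `ρ` and `r_j` be
  the `p`-adic representations of `E` and of the `G_j`, with `ρ` irreducible (so `E` has no complex
  multiplication by an order in `K`) and `r_j` semisimple.  If the logarithm of the quotient
  `|L(E, s)| / ∏_j |L(G_j, s)| ^ m_j` is concentrated on the line, for example if the quotient is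
  constant on a set of positive upper density, then there is `j` with `m_j > 0` and an automorphism `τ`
  of `K` such that the Euler factors of `E` at `v` and of `G_j` at `τ v` are equal for all `v` away from
  the finite set `S`. -/
theorem result (K : Type) [Field K] [NumberField K] [IsGalois ℚ K] (E : WeierstrassCurve K)
    (_ : E.IsElliptic) (W : HeightOneSpectrum (𝓞 K) → WeierstrassCurve (𝓞 K))
    (_ : MinimalModels E W) (F : Form K) :
    List.TFAE
      [∀ s : ℂ, 3 / 2 < s.re → L (curvePoly W) s = L (formPoly F) s,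
       ∀ᵐ τ : ℝ, edgeAbs (curvePoly W) τ = edgeAbs (formPoly F) τ,
       Concentrated fun τ => Real.log (edgeAbs (curvePoly W) τ) -
          Real.log (edgeAbs (formPoly F) τ)] ∧
    ∀ (p : ℕ) [Fact p.Prime] (ι : PadicAlgCl p →+* ℂ) (S : Finset ℕ), (∀ q ∈ S, q.Prime) →
      ∀ (κ : Type) [Fintype κ] (G : κ → Form K) (m : κ → ℤ)
        (ρ : Gal(AlgebraicClosure K/K) →* GL (Fin 2) (PadicAlgCl p))
        (r : κ → Gal(AlgebraicClosure K/K) →* GL (Fin 2) (PadicAlgCl p)),
      Continuous ρ → (∀ j, Continuous (r j)) → Irreducible ρ → (∀ j, Semisimple (r j)) →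
      Attached S ι ρ (curvePoly W) → (∀ j, Attached S ι (r j) (formPoly (G j))) →
      (Concentrated fun τ => Real.log (edgeAbs (curvePoly W) τ) -
          ∑ j, m j * Real.log (edgeAbs (formPoly (G j)) τ)) →
      ∃ j, 0 < m j ∧ ∃ τ : K ≃ₐ[ℚ] K, ∀ v v', IsImage τ v v' → ¬ Bad S v →
        curvePoly W v = formPoly (G j) v' := by
  classical
  -- the curve
  have hcurve : curvePoly W = Pool.Agent.Y774.FP.BW W := by
    funext v
    have h1 : (Nat.card {xy : (𝓞 K ⧸ v.asIdeal) × (𝓞 K ⧸ v.asIdeal) //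
            ((W v).map (Ideal.Quotient.mk v.asIdeal)).toAffine.Equation xy.1 xy.2}) =
        Pool.Agent.TH339.MP.affc ((W v).map (Ideal.Quotient.mk v.asIdeal)) := by
      unfold Pool.Agent.TH339.MP.affc
      refine Nat.card_congr (Equiv.subtypeEquivRight fun q => ?_)
      exact WeierstrassCurve.Affine.equation_iff ..
    unfold curvePoly Pool.Agent.Y774.FP.BW Pool.Agent.Y774.FP.ev Pool.Agent.TH339.MP.av
      Pool.Agent.TH339.MP.nm
    rw [h1]
    push_cast
    rfl
  have hE' : Pool.Agent.Y719.EL.N.Typ (Pool.Agent.Y719.EL.N.nz 1 (curvePoly W)) 2 := by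
    rw [hcurve]
    exact Pool.Agent.Y719.EL.N.typ_elliptic W
  -- the form
  have hF' : ∀ F : Form K,
      Pool.Agent.Y719.EL.N.Typ (Pool.Agent.Y719.EL.N.nz 1 (formPoly F)) 2 := by
    intro F
    have h1 : formPoly F = Pool.Agent.Y719.EL.N.FP F.a
        (fun v => if F.level ≤ v.asIdeal then 0 else (Ideal.absNorm v.asIdeal : ℂ)) := rfl
    rw [h1]
    refine Pool.Agent.Y719.EL.N.typ_form F.θ_lt (fun v z hz => ?_) F.meanSquare
    have hn : (1 : ℝ) ≤ Ideal.absNorm v.asIdeal := by
      exact_mod_cast Pool.Agent.Y774.MD.nm_pos v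
    by_cases h : F.level ≤ v.asIdeal
    · rw [if_pos h, zero_mul, add_zero] at hz
      have h2 : ‖F.a v‖ ≤ 1 := by
        rcases F.bad v h with h3 | h3 | h3 <;> rw [h3] <;> simp
      have h3 : ‖F.a v‖ * ‖z‖ = 1 := by
        rw [← norm_mul, ← sub_eq_zero.1 hz, norm_one]
      have h4 : 1 ≤ ‖z‖ := by nlinarith [norm_nonneg z]
      refine le_trans ?_ h4
      exact Real.rpow_le_one_of_one_le_of_nonpos hn (by linarith [F.θ_nonneg])
    · rw [if_neg h] at hz
      exact F.bound v h z hz
  have hL : ∀ (P : HeightOneSpectrum (𝓞 K) → ℂ[X]) (s : ℂ),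
      Pool.Agent.Y719.EL.N.LS P (fun _ => 1) s = L P s := by
    intro P s
    unfold Pool.Agent.Y719.EL.N.LS L
    refine tprod_congr fun v => ?_
    rw [one_mul]
    rfl
  have he : ∀ (P : HeightOneSpectrum (𝓞 K) → ℂ[X]) (τ : ℝ),
      Pool.Agent.Y719.EL.N.eA 1 P (fun _ => 1) τ = edgeAbs P τ := by
    intro P τ
    unfold Pool.Agent.Y719.EL.N.eA edgeAbs
    simp_rw [hL]
    congr 1
    funext σ
    congr 2
    push_cast
    ring
  have hunit : ∀ {P Q : HeightOneSpectrum (𝓞 K) → ℂ[X]},
      (Concentrated fun τ => Real.log (edgeAbs P τ) - Real.log (edgeAbs Q τ)) →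
      Pool.Agent.Y774.MD.Concentrated fun τ =>
        Real.log (Pool.Agent.Y719.EL.N.eA 1 P (fun _ => 1) τ) -
          ∑ j : Unit, ((1 : ℤ) : ℝ) * Real.log (Pool.Agent.Y719.EL.N.eA 1 Q (fun _ => 1) τ) := by
    intro P Q h
    refine cast (congrArg Concentrated ?_) h
    funext τ
    simp [he]
  refine ⟨?_, ?_⟩
  · tfae_have 1 → 2 := by
      intro h1
      refine Eventually.of_forall fun τ => ?_
      unfold edgeAbs
      unfold limUnder
      congr 1
      refine Filter.map_congr ?_
      filter_upwards [self_mem_nhdsWithin] with σ hσ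
      rw [h1]
      simp only [Complex.add_re, Complex.mul_re, Complex.ofReal_re, Complex.I_re, mul_zero,
        Complex.ofReal_im, Complex.I_im, mul_one, sub_self, add_zero]
      have h2 : ((3 : ℂ) / 2).re = 3 / 2 := by norm_num
      rw [h2]
      have h3 : (0 : ℝ) < σ := hσ
      linarith
    tfae_have 2 → 3 := by
      intro h1
      refine Pool.Agent.Y719.EL.M.concentrated_of_ae ?_
      filter_upwards [h1] with τ hτ
      rw [hτ, sub_self]
    tfae_have 3 → 1 := by
      intro hc s hs
      have hc' : Pool.Agent.Y774.MD.Concentrated fun τ =>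
          Real.log (Pool.Agent.Y719.EL.N.edgeAbs (Pool.Agent.Y719.EL.N.nz 1 (curvePoly W)) τ) -
            ∑ j : Unit, ((1 : ℤ) : ℝ) * Real.log (Pool.Agent.Y719.EL.N.edgeAbs
              (Pool.Agent.Y719.EL.N.nz 1 (formPoly F)) τ) := by
        have h1 := hunit hc
        simp only [Pool.Agent.Y719.EL.N.eA_eq, Pool.Agent.Y719.NG.tws_one] at h1
        exact h1
      have hgp : ∀ q : ℕ, q.Prime →
          Pool.Agent.Y774.MD.GP (Pool.Agent.Y719.EL.N.nz 1 (curvePoly W)) 0 q =
            Pool.Agent.Y774.MD.GP (Pool.Agent.Y719.EL.N.nz 1 (formPoly F)) 0 q := by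
        intro q hq
        have h2 := Pool.Agent.Y719.NG.GP_int (κ := Unit) (m := fun _ => 1) hE' (fun _ => hF' F)
          hc' hq
        simpa using h2
      have hLS : ∀ (P : HeightOneSpectrum (𝓞 K) → ℂ[X]),
          Pool.Agent.Y719.EL.N.Typ (Pool.Agent.Y719.EL.N.nz 1 P) 2 →
          L P s = Pool.Agent.Y774.MD.LQ
            (Pool.Agent.Y774.MD.GP (Pool.Agent.Y719.EL.N.nz 1 P) 0)
            (s - (((1 : ℝ) / 2 : ℝ) : ℂ)) := by
        intro P hP
        rw [← hP.LFun_eq, ← hL]
        · have h3 := Pool.Agent.Y719.EL.N.LFun_nz 1 P (fun _ => 1)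
            (s - (((1 : ℝ) / 2 : ℝ) : ℂ))
          rw [Pool.Agent.Y719.NG.tws_one, sub_add_cancel] at h3
          exact h3.symm
        · rw [Complex.sub_re, Complex.ofReal_re]
          linarith
      rw [hLS _ hE', hLS _ (hF' F)]
      unfold Pool.Agent.Y774.MD.LQ
      refine tprod_congr fun q => ?_
      unfold Pool.Agent.Y774.MD.fac
      rw [hgp q q.2]
    tfae_finish
  · intro p _ ι S hS κ _ G m ρ r hρ hr hirr hss haE haF hc
    obtain ⟨j, hj, σ, H, hH0, hH⟩ := Pool.Agent.Y719.NG.one_modulus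
      (P₀ := curvePoly W) (P := fun j => formPoly (G j)) (m := m) (w := 1) (N₀ := 2)
      (N := fun _ => 2) (n := fun _ => 2) hE' (fun j => hF' (G j))
      (by
        refine cast (congrArg Concentrated ?_) hc
        funext τ
        simp only [he]) ι hρ
      ⟨two_pos, hirr⟩ (R := r) hr hss
      (Pool.Agent.Y719.NG.bad K S) (Pool.Agent.Y719.NG.bad_finite hS)
      (fun τ v hv => (Pool.Agent.Y719.NG.bad_pl τ v).1 hv)
      (fun v hv => ⟨haE.unramified v hv, haE.frobenius v hv⟩)
      (fun j v hv => ⟨(haF j).unramified v hv, (haF j).frobenius v hv⟩)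
    obtain ⟨Q, hQ⟩ := Pool.Agent.Y719.NG.conj_of_intertwiner (ρ := ρ)
      (R := (r j).comp (Pool.Agent.Y719.NG.cj σ)) hH0 hH
    refine ⟨j, hj, Pool.Agent.Y719.NG.rs σ, fun v v' hvv hv => ?_⟩
    have hv' : v' = Pool.Agent.Y719.NG.pl (Pool.Agent.Y719.NG.rs σ) v := by
      apply HeightOneSpectrum.ext
      ext b
      rw [Pool.Agent.Y719.NG.mem_pl]
      refine hvv _ b ?_
      have h1 : ((RingOfIntegers.mapRingEquiv
          (Pool.Agent.Y719.NG.rs σ : K ≃+* K)) ((RingOfIntegers.mapRingEquiv
          (Pool.Agent.Y719.NG.rs σ : K ≃+* K)).symm b) : K) = (b : K) := by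
        rw [RingEquiv.apply_symm_apply]
      rw [← h1]
      rfl
    rw [hv']
    obtain ⟨g, hg⟩ := Pool.Agent.W401.Frob.exists_frob v
    have hbad : ¬ Bad S (Pool.Agent.Y719.NG.pl (Pool.Agent.Y719.NG.rs σ) v) := fun h1 =>
      hv ((Pool.Agent.Y719.NG.bad_pl _ v).1 h1)
    have h2 : r j (Pool.Agent.Y719.NG.cj σ g)⁻¹ = Q * ρ g⁻¹ * Q⁻¹ := by
      rw [← map_inv]
      exact hQ g⁻¹
    have h3 : (matrix (r j) (Pool.Agent.Y719.NG.cj σ g)⁻¹).charpolyRev =
        (matrix ρ g⁻¹).charpolyRev := by
      unfold matrix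
      rw [h2, Units.val_mul, Units.val_mul]
      exact Pool.Agent.Y719.NG.charpolyRev_conj _ _
    have h4 := (haF j).frobenius _ hbad _ (Pool.Agent.Y719.NG.frob_cj σ hg)
    rw [h3, haE.frobenius v hv g hg] at h4
    exact h4

end Pool.Agent.Results.MP_87c685_nt.OneModulus
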