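import Pool.Agent.Y719.EL.NF8

/-!
# Modularity over imaginary quadratic fields is decided by two moduli on the edge

Let `K` be an imaginary quadratic field, `E` an elliptic curve over `K` and `F` a Bianchi newform of
weight 2.  The Euler products of `E` and of `F` converge for `Re s > 3/2`.  Nothing is assumed about
a continuation of `L(E, s)` or of its twists.  Let `ψ` be one unramified Grössencharacter of
infinite order, for example the explicit one with `ψ(I) = (α/|α|)^w` for `I^h = (α)`, where `h` is the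
class number and `w` the number of roots of unity.  We show that `E` is modular by `F` if and only
if the absolute values of the boundary values on the line `Re s = 3/2` satisfy
`|L(E, s)| = |L(F, s)|` and `|L(E ⊗ ψ, s)| = |L(F ⊗ ψ, s)|`, and that it is enough to know the two
quotients of the absolute values to be nearly constant on a set of positive upper density of the
line.
-/

set_option autoImplicit false

namespace Pool.Agent.Results.MP_87c685_nt.TwoModuli

open NumberField IsDedekindDomain MeasureTheory Filter Topology Polynomial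

/-- `W v` is, for every finite place `v`, an integral model of `E` with discriminant minimal at
`v`. -/
def MinimalModels {K : Type} [Field K] [NumberField K] (E : WeierstrassCurve K)
    (W : HeightOneSpectrum (𝓞 K) → WeierstrassCurve (𝓞 K)) : Prop :=
  ∀ v : HeightOneSpectrum (𝓞 K),
    (∃ C : WeierstrassCurve.VariableChange K, C • (W v).map (algebraMap (𝓞 K) K) = E) ∧
    ∀ W' : WeierstrassCurve (𝓞 K),
      (∃ C : WeierstrassCurve.VariableChange K, C • W'.map (algebraMap (𝓞 K) K) = E) →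
      ∀ n : ℕ, (W v).Δ ∈ v.asIdeal ^ n → W'.Δ ∈ v.asIdeal ^ n

section
variable {K : Type} [Field K] [NumberField K]

open Classical in
/-- The polynomial of the Euler factor of the elliptic curve at `v`: `1 - a_v X + Nv X²` if the
reduction is good and `1 - a_v X` if it is bad, where `a_v` is `Nv` minus the number of affine points
of the reduction of the minimal model `W v` (for bad reduction this is `1`, `-1`, `0` in the split
multiplicative, non-split multiplicative, additive case). -/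
noncomputable def curvePoly (W : HeightOneSpectrum (𝓞 K) → WeierstrassCurve (𝓞 K))
    (v : HeightOneSpectrum (𝓞 K)) : ℂ[X] :=
  1 - C ((Ideal.absNorm v.asIdeal : ℂ)
        - (Nat.card {xy : (𝓞 K ⧸ v.asIdeal) × (𝓞 K ⧸ v.asIdeal) //
            ((W v).map (Ideal.Quotient.mk v.asIdeal)).toAffine.Equation xy.1 xy.2} : ℂ)) * X
    + C (if (W v).Δ ∈ v.asIdeal then 0 else (Ideal.absNorm v.asIdeal : ℂ)) * X ^ 2

variable (K) in
/-- The data of the Euler product of a Bianchi newform of weight 2 and trivial Nebentypus: the level,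
the Hecke eigenvalues `a_v` (which are `0` or `±1` at the places dividing the level), a bound towards
the Ramanujan conjecture, `|α_v|, |β_v| ≤ Nv^(1/2+θ)` with `θ < 1/2` for the roots of
`X² - a_v X + Nv`, and the Rankin-Selberg bound `∑_{Nv < x} |a_v|² Nv^(-1) log Nv = O(x)`. -/
structure Form where
  /-- the level -/
  level : Ideal (𝓞 K)
  level_ne : level ≠ ⊥
  /-- the Hecke eigenvalues -/
  a : HeightOneSpectrum (𝓞 K) → ℂ
  bad : ∀ v : HeightOneSpectrum (𝓞 K), level ≤ v.asIdeal → a v = 0 ∨ a v = 1 ∨ a v = -1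
  /-- the exponent in the bound towards the Ramanujan conjecture -/
  θ : ℝ
  θ_nonneg : 0 ≤ θ
  θ_lt : θ < 1 / 2
  bound : ∀ v : HeightOneSpectrum (𝓞 K), ¬ level ≤ v.asIdeal → ∀ z : ℂ,
    1 - a v * z + (Ideal.absNorm v.asIdeal : ℂ) * z ^ 2 = 0 →
      (Ideal.absNorm v.asIdeal : ℝ) ^ (-(1 / 2 + θ)) ≤ ‖z‖
  /-- the constant in the Rankin-Selberg bound -/
  C₀ : ℝ
  meanSquare : ∀ (x : ℕ) (T : Finset (HeightOneSpectrum (𝓞 K))),
    (∀ v ∈ T, Ideal.absNorm v.asIdeal < x) →
      ∑ v ∈ T, ‖a v‖ ^ 2 * (Ideal.absNorm v.asIdeal : ℝ) ^ (-1 : ℝ) *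
        Real.log (Ideal.absNorm v.asIdeal) ≤ C₀ * x

open Classical in
/-- The polynomial of the Euler factor of the form at `v`: `1 - a_v X + Nv X²` if `v` does not divide
the level and `1 - a_v X` if it does. -/
noncomputable def formPoly (F : Form K) (v : HeightOneSpectrum (𝓞 K)) : ℂ[X] :=
  1 - C (F.a v) * X +
    C (if F.level ≤ v.asIdeal then 0 else (Ideal.absNorm v.asIdeal : ℂ)) * X ^ 2

/-- `ψ` is an unramified Grössencharacter of infinite order: a multiplicative function on the ideals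
with `ψ((a)) = (σ(a)/|σ(a)|)^m` for all `a ≠ 0`, with an integer `m ≠ 0`. -/
def IsGroessen (σ : K →+* ℂ) (ψ : Ideal (𝓞 K) →* ℂ) : Prop :=
  ∃ m : ℤ, m ≠ 0 ∧ ∀ a : 𝓞 K, a ≠ 0 → ψ (Ideal.span {a}) = (σ a / (‖σ a‖ : ℂ)) ^ m

/-- The Euler product `∏_v P_v(ψ(v) Nv^{-s})⁻¹` with the polynomials `P_v`, twisted by `ψ`. -/
noncomputable def L (P : HeightOneSpectrum (𝓞 K) → ℂ[X]) (ψ : Ideal (𝓞 K) →* ℂ) (s : ℂ) : ℂ :=
  ∏' v : HeightOneSpectrum (𝓞 K),
    ((P v).eval (ψ v.asIdeal * (Ideal.absNorm v.asIdeal : ℂ) ^ (-s)))⁻¹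

/-- The limit of `|L(3/2 + σ + iτ)|` for `σ → 0`, `σ > 0`. -/
noncomputable def edgeAbs (P : HeightOneSpectrum (𝓞 K) → ℂ[X]) (ψ : Ideal (𝓞 K) →* ℂ) (τ : ℝ) :
    ℝ := limUnder (𝓝[>] (0 : ℝ)) fun σ : ℝ => ‖L P ψ (3 / 2 + σ + τ * Complex.I)‖

end

/-- The values of `f` are concentrated: there is `δ > 0` such that for every `ε > 0` there are
arbitrarily large `T` and a real number `x` with `|f - x| < ε` on a subset of `(0, T]` of measure at
least `δ T`. -/
def Concentrated (f : ℝ → ℝ) : Prop :=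
  ∃ δ : ℝ, 0 < δ ∧ ∀ ε : ℝ, 0 < ε → ∃ᶠ T : ℝ in atTop, ∃ x : ℝ,
    ENNReal.ofReal (δ * T) ≤ volume {τ | τ ∈ Set.Ioc 0 T ∧ |f τ - x| < ε}

/-- **Two moduli decide about modularity.**  Let `K` be an imaginary quadratic field and `σ` an
embedding in the complex numbers.  There are unramified Grössencharacters of infinite order.  Let `ψ`
be one of them, `E` an elliptic curve over `K` and `F` a Bianchi form of weight 2.

* For almost all real `τ` the limits `|L(E, 3/2 + iτ)|`, `|L(E ⊗ ψ, 3/2 + iτ)|`, `|L(F, 3/2 + iτ)|`,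
  `|L(F ⊗ ψ, 3/2 + iτ)|` exist and are positive.
* The following are equivalent: `E` is modular by `F`, that is the Euler factors agree at every place
  of `K`; for almost all `τ` the moduli of `E` and `F` agree, and those of their twists by `ψ` too;
  the logarithms of the two quotients of moduli are concentrated, for example constant on sets of
  positive upper density. -/
theorem result (K : Type) [Field K] [NumberField K] [IsTotallyComplex K]
    (hK : Module.finrank ℚ K = 2) (σ : K →+* ℂ) :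
    (∃ ψ : Ideal (𝓞 K) →* ℂ, IsGroessen σ ψ) ∧
    ∀ ψ : Ideal (𝓞 K) →* ℂ, IsGroessen σ ψ →
      ∀ (E : WeierstrassCurve K), E.IsElliptic →
      ∀ (W : HeightOneSpectrum (𝓞 K) → WeierstrassCurve (𝓞 K)), MinimalModels E W →
      ∀ F : Form K,
        (∀ P ∈ [curvePoly W, formPoly F], ∀ χ ∈ [1, ψ], ∀ᵐ τ : ℝ, 0 < edgeAbs P χ τ ∧
          Tendsto (fun σ : ℝ => ‖L P χ (3 / 2 + σ + τ * Complex.I)‖) (𝓝[>] 0)
            (𝓝 (edgeAbs P χ τ))) ∧
        List.TFAE
          [∀ v, curvePoly W v = formPoly F v,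
           (∀ᵐ τ : ℝ, edgeAbs (curvePoly W) 1 τ = edgeAbs (formPoly F) 1 τ) ∧
             ∀ᵐ τ : ℝ, edgeAbs (curvePoly W) ψ τ = edgeAbs (formPoly F) ψ τ,
           (Concentrated fun τ => Real.log (edgeAbs (curvePoly W) 1 τ) -
              Real.log (edgeAbs (formPoly F) 1 τ)) ∧
             Concentrated fun τ => Real.log (edgeAbs (curvePoly W) ψ τ) -
              Real.log (edgeAbs (formPoly F) ψ τ)] := by
  refine ⟨?_, ?_⟩
  · obtain ⟨m, ψ, hm, hψ⟩ := Pool.Agent.Y719.EL.N.exists_groessen hK σ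
    exact ⟨ψ, m, hm, hψ⟩
  rintro ψ ⟨m, hm, hψ⟩ E hE W hW F
  -- the curve
  have hcurve : curvePoly W = Pool.Agent.Y774.FP.BW W := by
    funext v
    have h1 : (Nat.card {xy : (𝓞 K ⧸ v.asIdeal) × (𝓞 K ⧸ v.asIdeal) //
            ((W v).map (Ideal.Quotient.mk v.asIdeal)).toAffine.Equation xy.1 xy.2}) =
        Pool.Agent.TH339.MP.affc ((W v).map (Ideal.Quotient.mk v.asIdeal)) := by
      unfold Pool.Agent.TH339.MP.affc
      refine Nat.card_congr (Equiv.subtypeEquivRight fun q => ?_)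
      exact WeierstrassCurve.Affine.equation_iff ..
    unfold curvePoly Pool.Agent.Y774.FP.BW Pool.Agent.Y774.FP.ev Pool.Agent.TH339.MP.av
      Pool.Agent.TH339.MP.nm
    rw [h1]
    push_cast
    rfl
  have hE' : Pool.Agent.Y719.EL.N.Typ (Pool.Agent.Y719.EL.N.nz 1 (curvePoly W)) 2 := by
    rw [hcurve]
    exact Pool.Agent.Y719.EL.N.typ_elliptic W
  -- the form
  classical
  have hF' : Pool.Agent.Y719.EL.N.Typ (Pool.Agent.Y719.EL.N.nz 1 (formPoly F)) 2 := by
    have h1 : formPoly F = Pool.Agent.Y719.EL.N.FP F.a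
        (fun v => if F.level ≤ v.asIdeal then 0 else (Ideal.absNorm v.asIdeal : ℂ)) := rfl
    rw [h1]
    refine Pool.Agent.Y719.EL.N.typ_form F.θ_lt (fun v z hz => ?_) F.meanSquare
    have hn : (1 : ℝ) ≤ Ideal.absNorm v.asIdeal := by
      exact_mod_cast Pool.Agent.Y774.MD.nm_pos v
    by_cases h : F.level ≤ v.asIdeal
    · rw [if_pos h, zero_mul, add_zero] at hz
      have h2 : ‖F.a v‖ ≤ 1 := by
        rcases F.bad v h with h3 | h3 | h3 <;> rw [h3] <;> simp
      have h3 : ‖F.a v‖ * ‖z‖ = 1 := by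
        rw [← norm_mul, ← sub_eq_zero.1 hz, norm_one]
      have h4 : 1 ≤ ‖z‖ := by nlinarith [norm_nonneg z]
      refine le_trans ?_ h4
      exact Real.rpow_le_one_of_one_le_of_nonpos hn (by linarith [F.θ_nonneg])
    · rw [if_neg h] at hz
      exact F.bound v h z hz
  -- the twists
  have hsep := Pool.Agent.Y719.EL.N.sep_pow (N := 2) (K := K) (ψ := fun v => ψ v.asIdeal)
    fun v w hvw k l hk _ hl _ hkl =>
      Pool.Agent.Y719.EL.N.groessen_sep hK hm hψ hvw hk hl hkl
  have hnorm : ∀ (j : Fin (Module.finrank ℚ K)) (v : HeightOneSpectrum (𝓞 K)),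
      ‖ψ v.asIdeal ^ (j : ℕ)‖ ≤ 1 := fun j v => by
    rw [norm_pow, Pool.Agent.Y719.EL.N.groessen_norm hψ v, one_pow]
  have hL : ∀ (P : HeightOneSpectrum (𝓞 K) → ℂ[X]) (χ : Ideal (𝓞 K) →* ℂ),
      Pool.Agent.Y719.EL.N.LS P (fun v => χ v.asIdeal) = L P χ := fun P χ => rfl
  have he : ∀ (P : HeightOneSpectrum (𝓞 K) → ℂ[X]) (χ : Ideal (𝓞 K) →* ℂ) (τ : ℝ),
      Pool.Agent.Y719.EL.N.eA 1 P (fun v => χ v.asIdeal) τ = edgeAbs P χ τ := by
    intro P χ τ
    unfold Pool.Agent.Y719.EL.N.eA edgeAbs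
    rw [hL]
    congr 1
    funext σ
    congr 2
    push_cast
    ring
  have hone : (fun v : HeightOneSpectrum (𝓞 K) => ψ v.asIdeal ^ 0) =
      fun v => (1 : Ideal (𝓞 K) →* ℂ) v.asIdeal := by
    funext v
    simp
  have hfst : (fun v : HeightOneSpectrum (𝓞 K) => ψ v.asIdeal ^ 1) = fun v => ψ v.asIdeal := by
    funext v
    rw [pow_one]
  have hall : ∀ Q : ℕ → Prop, (∀ j : Fin (Module.finrank ℚ K), Q j) ↔ Q 0 ∧ Q 1 := by
    intro Q
    rw [hK]
    exact Fin.forall_fin_two
  refine ⟨fun P hP χ hχ => ?_, ?_⟩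
  · have hχ1 : ∀ v : HeightOneSpectrum (𝓞 K), ‖χ v.asIdeal‖ ≤ 1 := by
      intro v
      simp only [List.mem_cons, List.not_mem_nil, or_false] at hχ
      rcases hχ with rfl | rfl
      · simp
      · exact (Pool.Agent.Y719.EL.N.groessen_norm hψ v).le
    have hPt : Pool.Agent.Y719.EL.N.Typ (Pool.Agent.Y719.EL.N.nz 1 P) 2 := by
      simp only [List.mem_cons, List.not_mem_nil, or_false] at hP
      rcases hP with rfl | rfl
      · exact hE'
      · exact hF'
    filter_upwards [Pool.Agent.Y719.EL.N.eA_edge hPt hχ1] with τ hτ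
    rw [he, hL] at hτ
    refine ⟨hτ.1, ?_⟩
    refine (tendsto_congr fun σ => ?_).1 hτ.2
    congr 2
    push_cast
    ring
  · have h1 := Pool.Agent.Y719.EL.N.main_w (κ := Unit) (w := 1) (P₀ := curvePoly W)
      (P := fun _ => formPoly F) (N₀ := 2) (n := fun _ => 2) (M := 2) hE' (fun _ => hF')
      (fun _ => 0) hnorm le_rfl (by simp) hsep
    simp only [Finset.univ_unique, Finset.prod_singleton, Finset.sum_singleton, add_zero] at h1
    have hshp : ∀ v, Pool.Agent.Y719.EL.N.shp (fun _ : Unit => formPoly F) (fun _ => 0) v =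
        formPoly F v := by
      intro v
      unfold Pool.Agent.Y719.EL.N.shp
      simp
    simp_rw [hshp] at h1
    rw [hall fun j => ∀ᵐ τ : ℝ, Pool.Agent.Y719.EL.N.eA 1 (curvePoly W)
        (fun v => ψ v.asIdeal ^ j) τ = Pool.Agent.Y719.EL.N.eA 1 (formPoly F)
        (fun v => ψ v.asIdeal ^ j) τ,
      hall fun j => Pool.Agent.Y774.MD.Concentrated fun τ =>
        Real.log (Pool.Agent.Y719.EL.N.eA 1 (curvePoly W) (fun v => ψ v.asIdeal ^ j) τ) -
        Real.log (Pool.Agent.Y719.EL.N.eA 1 (formPoly F) (fun v => ψ v.asIdeal ^ j) τ), hone,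
      hfst] at h1
    simp_rw [he] at h1
    exact h1

end Pool.Agent.Results.MP_87c685_nt.TwoModuli
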